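import Pool.Agent.Helper53.FM.Defs
import Pool.Agent.Helper48.WR.FinSeq
import Pool.Agent.Helper48.WR.FinCount

/-!
# Project FM, D1, part 1: the parameters of a level
-/

set_option autoImplicit false

namespace Pool.Agent.Helper48.FM

open Finset
open Pool.Agent.Helper53.WR
open Pool.Agent.Helper53.FM
open Pool.Agent.Helper48.FB (win crossF Cs WinLe Fs Dk LR zR dens)
open Pool.Agent.Helper48.WR (aSq uSq aSq_zero aSq_succ aSq_mono le_aSq aSq_add)

lemma laT_le_u {u : ℕ → ℕ} (huu : ∀ k, 6 * u (k + 1) ≤ 7 * u k) (k : ℕ) :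
    laT u k ≤ 14 * u k := by
  have := huu k
  unfold laT
  omega

/-- The gap parameter of a level. -/
def eM (s : ℕ) (a : ℕ → ℕ) (k : ℕ) : ℕ := 2 ^ (4 * s) * (k + 1) + Nat.log 2 (a k) + 75

/-- The window parameter of a level. -/
def wM (W : ℕ) (a : ℕ → ℕ) (k : ℕ) : ℕ := W + Nat.log 2 (a k) + 40

lemma log_le_of_large {x : ℕ} (hx : 2 ^ 13 ≤ x) : 400 * Nat.log 2 x ≤ x := by
  have h1 : 2 ^ Nat.log 2 x ≤ x := Nat.pow_log_le_self 2 (by omega)
  have h2 : 13 ≤ Nat.log 2 x := by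
    rw [← Nat.log_pow (by norm_num : 1 < 2) 13]
    exact Nat.log_mono_right hx
  have h3 : ∀ l, 13 ≤ l → 400 * l ≤ 2 ^ l := by
    intro l hl
    induction l, hl using Nat.le_induction with
    | base => norm_num
    | succ n hn ih => rw [pow_succ]; omega
  exact (h3 _ h2).trans h1

lemma mtow_aSq {s W c : ℕ} (hs : 200 ≤ s) (hW : W ≤ 2 ^ (4 * s)) (hc : 2 ≤ c) :
    MTow (aSq (2 ^ (s + 5)) (2 ^ (9 * s))) (uSq (2 ^ (s + 5)) (2 ^ (9 * s)))
      (eM s (aSq (2 ^ (s + 5)) (2 ^ (9 * s)))) (fun _ => 4 * 2 ^ (s + 5))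
      (wM W (aSq (2 ^ (s + 5)) (2 ^ (9 * s)))) (fun _ => c) := by
  set K := 2 ^ (s + 5) with hKdef
  set b := 2 ^ (9 * s) with hbdef
  have hK : 2 ^ 42 ≤ K := Nat.pow_le_pow_right (by norm_num) (by omega)
  have hK0 : 0 < K := by positivity
  have hbK : b / K = 2 ^ (8 * s - 5) := by
    rw [hbdef, hKdef, Nat.pow_div (by omega) (by norm_num)]
    congr 1
    omega
  -- lower bound for `u`
  have hu0 : ∀ k, 2 ^ (8 * s - 5) + k * 2 ^ (7 * s - 10) ≤ aSq K b k / K := by
    intro k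
    rw [Nat.le_div_iff_mul_le hK0]
    have h1 := aSq_add K b 0 k
    rw [aSq_zero, zero_add, hbK] at h1
    have h2 : 2 ^ (8 * s - 5) * K = b := by
      rw [hKdef, hbdef, ← pow_add]
      congr 1
      omega
    have h3 : 2 ^ (7 * s - 10) * K = 2 ^ (8 * s - 5) := by
      rw [hKdef, ← pow_add]
      congr 1
      omega
    calc (2 ^ (8 * s - 5) + k * 2 ^ (7 * s - 10)) * K
        = 2 ^ (8 * s - 5) * K + k * (2 ^ (7 * s - 10) * K) := by ring
      _ = b + k * 2 ^ (8 * s - 5) := by rw [h2, h3]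
      _ ≤ _ := h1
  have hU : ∀ k, 200 * 2 ^ (4 * s) * (k + 1) + 1048576 * (s + 200) ≤ aSq K b k / K := by
    intro k
    refine le_trans ?_ (hu0 k)
    have h1 : 200 * 2 ^ (4 * s) ≤ 2 ^ (7 * s - 10) := by
      calc 200 * 2 ^ (4 * s) ≤ 2 ^ 8 * 2 ^ (4 * s) := Nat.mul_le_mul_right _ (by norm_num)
        _ = 2 ^ (8 + 4 * s) := by rw [← pow_add]
        _ ≤ _ := Nat.pow_le_pow_right (by norm_num) (by omega)
    have h2 : 2 ^ (7 * s - 10) + 1048576 * (s + 200) ≤ 2 ^ (8 * s - 5) := by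
      have h3 : s + 200 ≤ 2 ^ (s + 1) := by
        have : s < 2 ^ s := Nat.lt_two_pow_self
        rw [pow_succ]
        omega
      have h4 : 1048576 * (s + 200) ≤ 2 ^ (8 * s - 6) := by
        calc 1048576 * (s + 200) ≤ 2 ^ 20 * 2 ^ (s + 1) := Nat.mul_le_mul (by norm_num) h3
          _ = 2 ^ (20 + (s + 1)) := by rw [← pow_add]
          _ ≤ _ := Nat.pow_le_pow_right (by norm_num) (by omega)
      have h5 : 2 ^ (7 * s - 10) ≤ 2 ^ (8 * s - 6) := Nat.pow_le_pow_right (by norm_num) (by omega)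
      have h6 : 2 ^ (8 * s - 5) = 2 * 2 ^ (8 * s - 6) := by
        rw [← pow_succ']
        congr 1
        omega
      calc 2 ^ (7 * s - 10) + 1048576 * (s + 200) ≤ 2 ^ (8 * s - 6) + 2 ^ (8 * s - 6) :=
            Nat.add_le_add h5 h4
        _ = _ := by rw [h6]; ring
    calc 200 * 2 ^ (4 * s) * (k + 1) + 1048576 * (s + 200)
        ≤ 2 ^ (7 * s - 10) * (k + 1) + 1048576 * (s + 200) :=
          Nat.add_le_add_right (Nat.mul_le_mul_right _ h1) _
      _ = (2 ^ (7 * s - 10) + 1048576 * (s + 200)) + k * 2 ^ (7 * s - 10) := by ring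
      _ ≤ _ := Nat.add_le_add_right h2 _
  have huu : ∀ k, 6 * uSq K b (k + 1) ≤ 7 * uSq K b k := by
    intro k
    unfold uSq
    rw [aSq_succ]
    have h1 := hU k
    set x := aSq K b k with hx
    set U := x / K with hUd
    have h2 : (x + U) / K ≤ U + 1 + U / 100 := by
      have h3 : x < K * (U + 1) := Nat.lt_mul_div_succ x hK0
      have h4 : U < 100 * (U / 100 + 1) := Nat.lt_mul_div_succ U (by norm_num)
      have h5 : x + U < K * (U + 1 + (U / 100 + 1)) := by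
        have h6 : 100 * (U / 100 + 1) ≤ K * (U / 100 + 1) := Nat.mul_le_mul_right _ (by omega)
        rw [mul_add K (U + 1)]
        omega
      have h7 := Nat.div_lt_of_lt_mul h5
      omega
    omega
  have h42 : ∀ k, 2 ^ 42 * uSq K b k ≤ aSq K b k := by
    intro k
    unfold uSq
    calc 2 ^ 42 * (aSq K b k / K) ≤ K * (aSq K b k / K) := Nat.mul_le_mul_right _ hK
      _ = aSq K b k / K * K := mul_comm _ _
      _ ≤ _ := Nat.div_mul_le_self _ _
  have hapos : ∀ k, 1 ≤ aSq K b k := by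
    intro k
    have h5 := hU k
    have h6 := Nat.div_le_self (aSq K b k) K
    omega
  have hlogu : ∀ k, 100 * Nat.log 2 (aSq K b k) + 7500 + 100 * 2 ^ (4 * s) * (k + 1)
      ≤ aSq K b k / K := by
    intro k
    have h1 := hU k
    set x := aSq K b k with hx
    set U := x / K with hUd
    have h3 : x < K * (U + 1) := Nat.lt_mul_div_succ x hK0
    have h4 : K * (U + 1) ≤ 2 ^ (s + 6) * U := by
      calc K * (U + 1) ≤ K * (2 * U) := Nat.mul_le_mul_left _ (by omega)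
        _ = 2 ^ (s + 6) * U := by rw [hKdef, pow_succ 2 (s + 5)]; ring
    have h5 : Nat.log 2 x ≤ (s + 7) + Nat.log 2 U := by
      have h6 : x < 2 ^ ((s + 7) + Nat.log 2 U) := by
        have h7 : U < 2 ^ (Nat.log 2 U + 1) := Nat.lt_pow_succ_log_self (by norm_num) U
        calc x < 2 ^ (s + 6) * U := by omega
          _ ≤ 2 ^ (s + 6) * 2 ^ (Nat.log 2 U + 1) := Nat.mul_le_mul_left _ h7.le
          _ = 2 ^ ((s + 7) + Nat.log 2 U) := by
              rw [← pow_add]
              congr 1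
              ring
      exact (Nat.log_lt_of_lt_pow (by have := hapos k; omega) h6).le
    have h9 : 1048576 * (s + 200) ≤ U := le_trans (Nat.le_add_left _ _) h1
    have h8 : 400 * Nat.log 2 U ≤ U := by
      apply log_le_of_large
      refine le_trans ?_ h9
      calc 2 ^ 13 ≤ 1048576 * 1 := by norm_num
        _ ≤ 1048576 * (s + 200) := Nat.mul_le_mul_left _ (Nat.le_add_left _ _)
    have h10 : 200 * 2 ^ (4 * s) * (k + 1) = 2 * (100 * 2 ^ (4 * s) * (k + 1)) := by ring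
    omega
  have hlt2 : ∀ k, aSq K b k < 2 ^ (Nat.log 2 (aSq K b k) + 1) := fun k =>
    Nat.lt_pow_succ_log_self (by norm_num) _
  have hlogmono : ∀ k, Nat.log 2 (aSq K b k) ≤ Nat.log 2 (aSq K b (k + 1)) := fun k =>
    Nat.log_mono_right (aSq_mono K b (Nat.le_succ k))
  have hFs : ∀ k, Fs (uSq K b) k ≤ 2 ^ (65 + Nat.log 2 (aSq K b k) + 1) := by
    intro k
    unfold Fs Cs
    have h1 := laT_le_u huu k
    have h2 := h42 k
    have h5 : laT (uSq K b) k + 1 ≤ 2 * aSq K b k := by have := hapos k; omega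
    calc 2 ^ 64 * (laT (uSq K b) k + 1) ≤ 2 ^ 64 * (2 * aSq K b k) := Nat.mul_le_mul_left _ h5
      _ = 2 ^ 65 * aSq K b k := by ring
      _ ≤ 2 ^ 65 * 2 ^ (Nat.log 2 (aSq K b k) + 1) := Nat.mul_le_mul_left _ (hlt2 k).le
      _ = _ := by rw [← pow_add, add_assoc]
  refine ⟨⟨fun k => rfl, ?_, ?_, ?_, huu, ?_, ?_, ?_, ?_, ?_, ?_, ?_⟩, h42, ?_, ?_, ?_, ?_, ?_, ?_⟩
  · intro k
    unfold eM
    have h1 : 2 ^ 10 ≤ 2 ^ (4 * s) := Nat.pow_le_pow_right (by norm_num) (by omega)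
    have h2 : 2 ^ (4 * s) * 1 ≤ 2 ^ (4 * s) * (k + 1) := Nat.mul_le_mul_left _ (by omega)
    omega
  · intro k
    unfold eM uSq
    have h1 := hlogu k
    calc 100 * (2 ^ (4 * s) * (k + 1) + Nat.log 2 (aSq K b k) + 75)
        = 100 * Nat.log 2 (aSq K b k) + 7500 + 100 * 2 ^ (4 * s) * (k + 1) := by ring
      _ ≤ _ := h1
  · intro k
    have := h42 k
    omega
  · intro k
    unfold uSq
    exact Nat.div_le_div_right (aSq_mono K _ (Nat.le_succ k))
  · intro k
    unfold eM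
    have h1 := hlogmono k
    have h2 : 2 ^ (4 * s) * (k + 1) ≤ 2 ^ (4 * s) * (k + 1 + 1) := Nat.mul_le_mul_left _ (by omega)
    omega
  · intro k
    exact le_rfl
  · intro k
    have h1 := hlt2 k
    calc 20 * aSq K b k ≤ 2 ^ 5 * 2 ^ (Nat.log 2 (aSq K b k) + 1) := by omega
      _ = 2 ^ (5 + (Nat.log 2 (aSq K b k) + 1)) := by rw [← pow_add]
      _ ≤ _ := Nat.pow_le_pow_right (by norm_num) (by unfold eM; omega)
  · intro k
    exact (hFs k).trans (Nat.pow_le_pow_right (by norm_num) (by unfold eM; omega))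
  · intro k
    have : 1 ≤ eM s (aSq K b) k := by unfold eM; omega
    exact Nat.le_mul_of_pos_left _ this
  · intro k
    unfold uSq
    have h1 := hU k
    set x := aSq K b k with hx
    have h3 : x < K * (x / K + 1) := Nat.lt_mul_div_succ x hK0
    have h4 : 3 ≤ x / K := by omega
    have h5 : 3 * x ≤ 3 * (K * (x / K + 1)) := by omega
    have h6 : 3 * (K * (x / K + 1)) ≤ x / K * (4 * K) := by nlinarith
    show 3 * x ≤ x / K * (4 * K)
    omega
  · intro k
    have h5 : Dk (fun _ => 4 * K) k = (k + 1) * (2 ^ 18 * K) := by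
      unfold Dk
      ring
    rw [h5]
    have h6 : 2 ^ 38 * K ≤ 2 ^ (4 * s) := by
      rw [hKdef, ← pow_add]
      exact Nat.pow_le_pow_right (by norm_num) (by omega)
    calc 2 ^ 20 * ((k + 1) * (2 ^ 18 * K)) = 2 ^ 38 * K * (k + 1) := by ring
      _ ≤ 2 ^ (4 * s) * (k + 1) := Nat.mul_le_mul_right _ h6
      _ ≤ _ := by unfold eM; omega
  · intro k
    show W + Nat.log 2 (aSq K b k) + 40 + Nat.log 2 (aSq K b k) + 60
      ≤ 20 * (2 ^ (4 * s) * (k + 1) + Nat.log 2 (aSq K b k) + 75)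
    have h2 : 2 ^ (4 * s) * 1 ≤ 2 ^ (4 * s) * (k + 1) := Nat.mul_le_mul_left _ (by omega)
    omega
  · intro k
    have := hlogmono k
    unfold wM
    omega
  · intro k
    exact (hFs k).trans (Nat.pow_le_pow_right (by norm_num) (by unfold wM; omega))
  · intro k
    exact le_rfl
  · intro k
    exact hc

end Pool.Agent.Helper48.FM
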